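import Pool.Agent.Y506.RG.Wt

/-!
# A finite measure is not invariant under translations
-/

set_option autoImplicit false

namespace Pool.Agent.Y506.PV

open MeasureTheory Set Filter Topology
open scoped ENNReal InnerProductSpace
open Pool.Agent.W695.KH (Eu EU EV VV Sm Pot Uu)
open Pool.Agent.Y506.RG

theorem ker_of {n : ℕ} {w : Eu (Fin n) → ℝ} (hA : Adm w) (z : Eu (Fin n))
    (hz : ∀ x, w (x + z) = w x) : z = 0 := by
  have hz' : ∀ x, w (x - z) = w x := by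
    intro x
    have h := hz (x - z)
    rw [sub_add_cancel] at h
    exact h.symm
  have e1 : ∫ x, ‖x + z‖ ^ 2 * w x = ∫ x, ‖x‖ ^ 2 * w x := by
    have h := integral_add_right_eq_self (μ := volume) (fun x : Eu (Fin n) => ‖x‖ ^ 2 * w x) z
    simpa only [hz] using h
  have e2 : ∫ x, ‖x - z‖ ^ 2 * w x = ∫ x, ‖x‖ ^ 2 * w x := by
    have h := integral_sub_right_eq_self (μ := volume) (fun x : Eu (Fin n) => ‖x‖ ^ 2 * w x) z
    simpa only [hz'] using h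
  have hb : ∀ x y : Eu (Fin n), ‖x + y‖ ^ 2 ≤ (2 + 2 * ‖y‖ ^ 2) * (1 + ‖x‖ ^ 2) := by
    intro x y
    have h1 : ‖x + y‖ ^ 2 ≤ (‖x‖ + ‖y‖) ^ 2 := pow_le_pow_left₀ (norm_nonneg _) (norm_add_le _ _) 2
    nlinarith [sq_nonneg (‖x‖ - ‖y‖), sq_nonneg (‖x‖ * ‖y‖)]
  have i1 : Integrable fun x => ‖x + z‖ ^ 2 * w x :=
    hA.of_bd (fun x => ‖x + z‖ ^ 2) (by fun_prop) (2 + 2 * ‖z‖ ^ 2) fun x => by
      rw [abs_of_nonneg (by positivity)]
      exact hb x z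
  have i2 : Integrable fun x => ‖x - z‖ ^ 2 * w x :=
    hA.of_bd (fun x => ‖x - z‖ ^ 2) (by fun_prop) (2 + 2 * ‖z‖ ^ 2) fun x => by
      rw [abs_of_nonneg (by positivity)]
      have := hb x (-z)
      rwa [norm_neg, ← sub_eq_add_neg] at this
  have i3 : Integrable fun x => ‖x‖ ^ 2 * w x :=
    hA.of_bd (fun x => ‖x‖ ^ 2) (by fun_prop) 1 fun x => by
      rw [abs_of_nonneg (by positivity)]
      nlinarith
  have i4 : Integrable fun x => w x := hA.one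
  have e3 : ∫ x, (‖x + z‖ ^ 2 * w x + ‖x - z‖ ^ 2 * w x) =
      2 * ∫ x, ‖x‖ ^ 2 * w x := by
    rw [integral_add i1 i2, e1, e2]
    ring
  have e4 : ∫ x, (‖x + z‖ ^ 2 * w x + ‖x - z‖ ^ 2 * w x) =
      2 * (∫ x, ‖x‖ ^ 2 * w x) + 2 * ‖z‖ ^ 2 * ∫ x, w x := by
    rw [← integral_const_mul, ← integral_const_mul,
      ← integral_add (i3.const_mul 2) (i4.const_mul _)]
    refine integral_congr_ae (Eventually.of_forall fun x => ?_)
    simp only
    have h := parallelogram_law_with_norm ℝ x z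
    have h2 : ‖x + z‖ ^ 2 + ‖x - z‖ ^ 2 = 2 * (‖x‖ ^ 2 + ‖z‖ ^ 2) := by
      nlinarith [h]
    rw [← add_mul, h2]
    ring
  have h5 : 2 * ‖z‖ ^ 2 * ∫ x, w x = 0 := by linarith
  have h6 : ‖z‖ ^ 2 = 0 := by
    rcases mul_eq_zero.1 h5 with h | h
    · linarith
    · exact absurd h hA.pos.ne'
  exact norm_eq_zero.1 (pow_eq_zero_iff two_ne_zero |>.1 h6)

end Pool.Agent.Y506.PV
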