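import Pool.Agent.Y506.PV.Stm

/-!
# Second moments of log-concave functions
-/

set_option autoImplicit false

namespace Pool.Agent.Y506.PV

open MeasureTheory Set Filter Topology
open scoped ENNReal InnerProductSpace
open Pool.Agent.W695.KH (Eu)
open Pool.Agent.Y506.RG

theorem lev_convex {n : ℕ} {w : Eu (Fin n) → ℝ} (hlc : LCn w) {t : ℝ} (ht : 0 < t) :
    Convex ℝ {x | t ≤ w x} := by
  intro x hx y hy a b ha hb hab
  rw [mem_ofPred_eq] at hx hy ⊢
  rcases eq_or_lt_of_le ha with h0 | h0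
  · have : b = 1 := by linarith
    rw [← h0, this, zero_smul, one_smul, zero_add]
    exact hy
  rcases eq_or_lt_of_le hb with h1 | h1
  · have : a = 1 := by linarith
    rw [← h1, this, zero_smul, one_smul, add_zero]
    exact hx
  have e : a = 1 - b := by linarith
  have h2 := hlc x y b h1 (by linarith)
  rw [e]
  refine le_trans ?_ h2
  calc t = t ^ (1 - b) * t ^ b := by
        rw [← Real.rpow_add ht, sub_add_cancel, Real.rpow_one]
    _ ≤ w x ^ (1 - b) * w y ^ b :=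
        mul_le_mul (Real.rpow_le_rpow ht.le hx (by linarith)) (Real.rpow_le_rpow ht.le hy h1.le)
          (Real.rpow_nonneg ht.le _) (Real.rpow_nonneg (ht.le.trans hx) _)

/-- a convex set of positive and finite volume in a ball-containing position is bounded -/
theorem conv_bdd {n : ℕ} {L : Set (Eu (Fin n))} (hL : Convex ℝ L) (hfin : volume L ≠ ⊤)
    {x0 : Eu (Fin n)} {δ : ℝ} (hδ : 0 < δ) (hb : Metric.ball x0 δ ⊆ L) :
    ∃ R : ℝ, 0 < R ∧ ∀ y ∈ L, ‖y - x0‖ ≤ R := by
  obtain ⟨b, hb0⟩ : ∃ b : ℝ≥0∞, b = volume (Metric.ball (0 : Eu (Fin n)) (δ / 2)) := ⟨_, rfl⟩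
  have hbpos : 0 < b := by
    rw [hb0]
    exact Metric.measure_ball_pos _ _ (by positivity)
  obtain ⟨N, hN⟩ : ∃ N : ℕ, volume L < N * b := by
    obtain ⟨N, hN⟩ := ENNReal.exists_nat_mul_gt hbpos.ne' hfin
    exact ⟨N, hN⟩
  refine ⟨2 * (N + 1) * δ, by positivity, fun y hy => ?_⟩
  by_contra hlt
  rw [not_le] at hlt
  obtain ⟨D, hD⟩ : ∃ D : ℝ, D = ‖y - x0‖ := ⟨_, rfl⟩
  rw [← hD] at hlt
  have hD0 : 0 < D := lt_trans (by positivity) hlt
  -- the balls
  obtain ⟨p, hp⟩ : ∃ p : ℕ → Eu (Fin n), p = fun j : ℕ => x0 + ((j : ℝ) * δ / D) • (y - x0) := ⟨_, rfl⟩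
  have hdist : ∀ i j : ℕ, dist (p i) (p j) = |(i : ℝ) - j| * δ := by
    intro i j
    rw [hp, dist_eq_norm]
    have e : x0 + ((i : ℝ) * δ / D) • (y - x0) - (x0 + ((j : ℝ) * δ / D) • (y - x0)) =
        ((((i : ℝ) - j) * δ) / D) • (y - x0) := by
      rw [add_sub_add_left_eq_sub, ← sub_smul]
      congr 1
      ring
    simp only
    rw [e, norm_smul, ← hD, Real.norm_eq_abs, abs_div, abs_of_pos hD0, div_mul_cancel₀ _ hD0.ne',
      abs_mul, abs_of_pos hδ]
  have hsub : ∀ j < N, Metric.ball (p j) (δ / 2) ⊆ L := by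
    intro j hj z hz
    obtain ⟨s, hs⟩ : ∃ s : ℝ, s = (j : ℝ) * δ / D := ⟨_, rfl⟩
    have hjN : (j : ℝ) ≤ N := by exact_mod_cast hj.le
    have hs0 : 0 ≤ s := by rw [hs]; positivity
    have hs1 : s < 1 / 2 := by
      rw [hs, div_lt_iff₀ hD0]
      nlinarith
    have h1s : 0 < 1 - s := by linarith
    have hz2 : z = (1 - s) • (x0 + (1 - s)⁻¹ • (z - p j)) + s • y := by
      rw [smul_add, smul_smul, mul_inv_cancel₀ h1s.ne', one_smul, hp]
      simp only
      rw [← hs]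
      module
    rw [hz2]
    refine hL (hb ?_) hy h1s.le hs0 (by ring)
    rw [Metric.mem_ball, dist_eq_norm, add_sub_cancel_left, norm_smul, norm_inv,
      Real.norm_eq_abs, abs_of_pos h1s]
    rw [Metric.mem_ball, dist_eq_norm] at hz
    rw [inv_mul_lt_iff₀ h1s]
    nlinarith
  have hdisj : (↑(Finset.range N) : Set ℕ).PairwiseDisjoint fun j => Metric.ball (p j) (δ / 2) := by
    intro i hi j hj hij
    refine Metric.ball_disjoint_ball ?_
    rw [hdist]
    have h1 : (1 : ℝ) ≤ |(i : ℝ) - j| := by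
      have : (i : ℤ) - j ≠ 0 := by omega
      have h2 := Int.one_le_abs this
      exact_mod_cast h2
    nlinarith
  have hvol : volume (⋃ j ∈ Finset.range N, Metric.ball (p j) (δ / 2)) = N * b := by
    rw [measure_biUnion_finset hdisj fun j _ => measurableSet_ball]
    have : ∀ j, volume (Metric.ball (p j) (δ / 2)) = b := fun j => by
      rw [hb0, Measure.addHaar_ball_center]
    simp [this]
  have hle : N * b ≤ volume L := by
    rw [← hvol]
    refine measure_mono (iUnion₂_subset fun j hj => hsub j (Finset.mem_range.1 hj))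
  exact absurd hle (not_le.2 hN)

theorem int_moment {n : ℕ} {w : Eu (Fin n) → ℝ} (h0 : ∀ x, 0 ≤ w x) (hm : Measurable w)
    (hlc : LCn w) (hp : 0 < ∫ x, w x) : Integrable fun x => (1 + ‖x‖ ^ 2) * w x := by
  have hi : Integrable w := by
    by_contra h
    rw [integral_undef h] at hp
    exact lt_irrefl _ hp
  -- a level set with interior points
  obtain ⟨t, ht, x0, δ, hδ, hball⟩ : ∃ (t : ℝ), 0 < t ∧ ∃ (x0 : Eu (Fin n)) (δ : ℝ), 0 < δ ∧
      Metric.ball x0 δ ⊆ {x | t ≤ w x} := by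
    have h1 : 0 < volume {x | 0 < w x} := by
      by_contra h
      have h2 : volume {x | 0 < w x} = 0 := le_antisymm (not_lt.1 h) zero_le
      have h3 : w =ᵐ[volume] 0 := by
        rw [Filter.EventuallyEq, ae_iff]
        refine measure_mono_null (fun x hx => ?_) h2
        rw [mem_ofPred_eq] at hx ⊢
        exact lt_of_le_of_ne (h0 x) (Ne.symm hx)
      rw [integral_congr_ae h3] at hp
      simp at hp
    obtain ⟨k, hk⟩ : ∃ k : ℕ, 0 < volume {x | 1 / ((k : ℝ) + 1) ≤ w x} := by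
      by_contra h
      push Not at h
      have h2 : {x | 0 < w x} ⊆ ⋃ k : ℕ, {x | 1 / ((k : ℝ) + 1) ≤ w x} := by
        intro x hx
        obtain ⟨k, hk⟩ := exists_nat_one_div_lt (show (0 : ℝ) < w x from hx)
        exact mem_iUnion.2 ⟨k, hk.le⟩
      have h3 : volume (⋃ k : ℕ, {x | 1 / ((k : ℝ) + 1) ≤ w x}) = 0 :=
        measure_iUnion_null fun k => le_antisymm (h k) zero_le
      exact absurd (measure_mono_null h2 h3) h1.ne'
    have ht : (0 : ℝ) < 1 / ((k : ℝ) + 1) := by positivity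
    have hcv := lev_convex hlc ht
    have hint : (interior {x | 1 / ((k : ℝ) + 1) ≤ w x}).Nonempty := by
      by_contra h
      rw [not_nonempty_iff_eq_empty] at h
      have h2 := hcv.addHaar_frontier volume
      have h3 : volume {x | 1 / ((k : ℝ) + 1) ≤ w x} ≤ 0 := by
        rw [← h2]
        refine measure_mono fun x hx => ?_
        rw [frontier, h, sdiff_empty]
        exact subset_closure hx
      exact absurd h3 (not_le.2 hk)
    obtain ⟨x0, hx0⟩ := hint
    obtain ⟨δ, hδ, hb⟩ := Metric.isOpen_iff.1 isOpen_interior x0 hx0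
    exact ⟨_, ht, x0, δ, hδ, hb.trans interior_subset⟩
  -- the larger level set is bounded
  obtain ⟨t1, ht1⟩ : ∃ t1 : ℝ, t1 = t * Real.exp (-1) := ⟨_, rfl⟩
  have ht10 : 0 < t1 := by rw [ht1]; positivity
  have ht1t : t1 ≤ t := by
    rw [ht1]
    have : Real.exp (-1) ≤ 1 := Real.exp_le_one_iff.2 (by norm_num)
    nlinarith
  have hfin : volume {x | t1 ≤ w x} ≠ ⊤ := by
    have h1 := hi.measure_norm_ge_lt_top ht10
    refine (lt_of_le_of_lt (measure_mono fun x hx => ?_) h1).ne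
    rw [mem_ofPred_eq] at hx ⊢
    rw [Real.norm_eq_abs, abs_of_nonneg (h0 x)]
    exact hx
  obtain ⟨R, hR, hRb⟩ := conv_bdd (lev_convex hlc ht10) hfin hδ
    (hball.trans fun x hx => ht1t.trans hx)
  have hx0 : t ≤ w x0 := hball (Metric.mem_ball_self hδ)
  -- decay
  have hdec : ∀ x, 2 * R < ‖x - x0‖ → w x ≤ t * Real.exp (-(‖x - x0‖ / (2 * R))) := by
    intro x hx
    obtain ⟨D, hD⟩ : ∃ D : ℝ, D = ‖x - x0‖ := ⟨_, rfl⟩
    rw [← hD] at hx ⊢
    have hD0 : 0 < D := lt_trans (by positivity) hx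
    obtain ⟨s, hs⟩ : ∃ s : ℝ, s = 2 * R / D := ⟨_, rfl⟩
    have hs0 : 0 < s := by rw [hs]; positivity
    have hs1 : s < 1 := by rw [hs, div_lt_one hD0]; exact hx
    have h1 := hlc x0 x s hs0 hs1
    have h2 : w ((1 - s) • x0 + s • x) < t1 := by
      by_contra h
      rw [not_lt] at h
      have h3 := hRb _ h
      have e : (1 - s) • x0 + s • x - x0 = s • (x - x0) := by module
      rw [e, norm_smul, ← hD, Real.norm_eq_abs, abs_of_pos hs0, hs, div_mul_cancel₀ _ hD0.ne'] at h3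
      linarith
    have h3 : t ^ (1 - s) * w x ^ s ≤ t * Real.exp (-1) := by
      rw [← ht1]
      refine le_trans (mul_le_mul_of_nonneg_right (Real.rpow_le_rpow ht.le hx0 (by linarith))
        (Real.rpow_nonneg (h0 x) _)) (h1.trans h2.le)
    have h4 : w x ^ s ≤ t ^ s * Real.exp (-1) := by
      have h5 : t = t ^ (1 - s) * t ^ s := by
        rw [← Real.rpow_add ht, sub_add_cancel, Real.rpow_one]
      have h6 : 0 < t ^ (1 - s) := Real.rpow_pos_of_pos ht _
      have h7 : t ^ (1 - s) * w x ^ s ≤ t ^ (1 - s) * (t ^ s * Real.exp (-1)) := by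
        rw [← mul_assoc, ← h5]
        exact h3
      exact le_of_mul_le_mul_left h7 h6
    have h5 : (w x ^ s) ^ s⁻¹ ≤ (t ^ s * Real.exp (-1)) ^ s⁻¹ :=
      Real.rpow_le_rpow (Real.rpow_nonneg (h0 x) _) h4 (by positivity)
    rw [← Real.rpow_mul (h0 x), mul_inv_cancel₀ hs0.ne', Real.rpow_one,
      Real.mul_rpow (Real.rpow_nonneg ht.le _) (Real.exp_pos _).le, ← Real.rpow_mul ht.le,
      mul_inv_cancel₀ hs0.ne', Real.rpow_one, ← Real.exp_mul] at h5
    have e2 : -1 * s⁻¹ = -(D / (2 * R)) := by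
      rw [hs, inv_div]
      ring
    rwa [e2] at h5
  -- the dominating function
  obtain ⟨x1, hx1⟩ : ∃ x1 : Eu (Fin n), x1 = (1 / 2 : ℝ) • x0 := ⟨_, rfl⟩
  have hg : Integrable fun x => w ((1 / 2 : ℝ) • x + x1) := by
    have h1 : Integrable fun x => w (x + x1) := hi.comp_add_right x1
    exact h1.comp_smul (by norm_num : (1 / 2 : ℝ) ≠ 0)
  obtain ⟨C, hC⟩ : ∃ C : ℝ, C = 2 + 2 * (‖x0‖ + 2 * R) ^ 2 + 128 * R ^ 2 := ⟨_, rfl⟩
  have hC0 : 0 ≤ C := by rw [hC]; positivity
  refine Integrable.mono' ((hi.const_mul C).add (hg.const_mul C)) ?_ (Eventually.of_forall ?_)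
  · exact ((measurable_const.add (measurable_norm.pow_const 2)).mul hm).aestronglyMeasurable
  intro x
  have hw2 : 0 ≤ w ((1 / 2 : ℝ) • x + x1) := h0 _
  rw [Real.norm_eq_abs, abs_of_nonneg (mul_nonneg (by positivity) (h0 x))]
  simp only [Pi.add_apply]
  rcases le_or_gt ‖x - x0‖ (2 * R) with hx | hx
  · have h1 : ‖x‖ ≤ ‖x0‖ + 2 * R := by
      have := norm_le_norm_add_norm_sub' x x0
      linarith
    have h2 : 1 + ‖x‖ ^ 2 ≤ C := by
      have : ‖x‖ ^ 2 ≤ (‖x0‖ + 2 * R) ^ 2 := pow_le_pow_left₀ (norm_nonneg _) h1 2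
      rw [hC]
      nlinarith [sq_nonneg R, sq_nonneg (‖x0‖ + 2 * R)]
    have h3 := mul_le_mul_of_nonneg_right h2 (h0 x)
    have h4 := mul_nonneg hC0 hw2
    linarith
  · obtain ⟨u, hu⟩ : ∃ u : ℝ, u = ‖x - x0‖ / (4 * R) := ⟨_, rfl⟩
    have hu0 : 0 ≤ u := by rw [hu]; positivity
    have hdx : ‖x - x0‖ = 4 * R * u := by rw [hu]; field_simp
    have h1 : w x ≤ t * Real.exp (-u) ^ 2 := by
      have h := hdec x hx
      have e : Real.exp (-u) ^ 2 = Real.exp (-(‖x - x0‖ / (2 * R))) := by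
        rw [← Real.exp_nat_mul, hu]
        congr 1
        push_cast
        field_simp
        ring
      rwa [e]
    have h2 : Real.sqrt (w x) ≤ Real.sqrt t * Real.exp (-u) := by
      have h := Real.sqrt_le_sqrt h1
      rwa [Real.sqrt_mul ht.le, Real.sqrt_sq (Real.exp_pos _).le] at h
    have h3 : Real.sqrt t * Real.sqrt (w x) ≤ w ((1 / 2 : ℝ) • x + x1) := by
      have h := hlc x0 x (1 / 2) (by norm_num) (by norm_num)
      have e : (1 - 1 / 2 : ℝ) • x0 + (1 / 2 : ℝ) • x = (1 / 2 : ℝ) • x + x1 := by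
        rw [hx1]
        module
      rw [e] at h
      refine le_trans ?_ h
      rw [Real.sqrt_eq_rpow, Real.sqrt_eq_rpow]
      have e2 : (1 - 1 / 2 : ℝ) = 1 / 2 := by norm_num
      rw [e2]
      exact mul_le_mul_of_nonneg_right (Real.rpow_le_rpow ht.le hx0 (by norm_num))
        (Real.rpow_nonneg (h0 x) _)
    have hst : 0 < Real.sqrt t := Real.sqrt_pos.2 ht
    have h4 : w x ≤ Real.exp (-u) * w ((1 / 2 : ℝ) • x + x1) := by
      calc w x = Real.sqrt (w x) * Real.sqrt (w x) := (Real.mul_self_sqrt (h0 x)).symm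
        _ ≤ (Real.sqrt t * Real.exp (-u)) * Real.sqrt (w x) :=
            mul_le_mul_of_nonneg_right h2 (Real.sqrt_nonneg _)
        _ = Real.exp (-u) * (Real.sqrt t * Real.sqrt (w x)) := by ring
        _ ≤ _ := mul_le_mul_of_nonneg_left h3 (Real.exp_pos _).le
    have h5 : (1 + ‖x‖ ^ 2) * Real.exp (-u) ≤ C := by
      have h6 : ‖x‖ ≤ ‖x0‖ + 4 * R * u := by
        have := norm_le_norm_add_norm_sub' x x0
        linarith
      have h7 : ‖x‖ ^ 2 ≤ 2 * ‖x0‖ ^ 2 + 32 * R ^ 2 * u ^ 2 := by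
        have : ‖x‖ ^ 2 ≤ (‖x0‖ + 4 * R * u) ^ 2 := pow_le_pow_left₀ (norm_nonneg _) h6 2
        nlinarith [sq_nonneg (‖x0‖ - 4 * R * u)]
      have h8 : u ^ 2 * Real.exp (-u) ≤ 2 := by
        have h := Real.quadratic_le_exp_of_nonneg hu0
        have h9 : u ^ 2 ≤ 2 * Real.exp u := by nlinarith
        calc u ^ 2 * Real.exp (-u) ≤ (2 * Real.exp u) * Real.exp (-u) :=
              mul_le_mul_of_nonneg_right h9 (Real.exp_pos _).le
          _ = 2 := by rw [mul_assoc, ← Real.exp_add, add_neg_cancel, Real.exp_zero, mul_one]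
      have h10 : Real.exp (-u) ≤ 1 := Real.exp_le_one_iff.2 (by linarith)
      have h11 : (1 + ‖x‖ ^ 2) * Real.exp (-u) ≤
          (1 + 2 * ‖x0‖ ^ 2) * Real.exp (-u) + 32 * R ^ 2 * (u ^ 2 * Real.exp (-u)) := by
        calc (1 + ‖x‖ ^ 2) * Real.exp (-u)
            ≤ (1 + (2 * ‖x0‖ ^ 2 + 32 * R ^ 2 * u ^ 2)) * Real.exp (-u) :=
              mul_le_mul_of_nonneg_right (by linarith) (Real.exp_pos _).le
          _ = _ := by ring
      have h12 : (1 + 2 * ‖x0‖ ^ 2) * Real.exp (-u) ≤ 1 + 2 * ‖x0‖ ^ 2 := by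
        nlinarith [sq_nonneg ‖x0‖]
      have h13 : 32 * R ^ 2 * (u ^ 2 * Real.exp (-u)) ≤ 64 * R ^ 2 := by
        nlinarith [sq_nonneg R]
      rw [hC]
      nlinarith [sq_nonneg R, norm_nonneg x0]
    have h6 : (1 + ‖x‖ ^ 2) * w x ≤ C * w ((1 / 2 : ℝ) • x + x1) := by
      calc (1 + ‖x‖ ^ 2) * w x ≤ (1 + ‖x‖ ^ 2) * (Real.exp (-u) * w ((1 / 2 : ℝ) • x + x1)) :=
            mul_le_mul_of_nonneg_left h4 (by positivity)
        _ = ((1 + ‖x‖ ^ 2) * Real.exp (-u)) * w ((1 / 2 : ℝ) • x + x1) := by ring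
        _ ≤ _ := mul_le_mul_of_nonneg_right h5 hw2
    have h7 := mul_nonneg hC0 (h0 x)
    linarith

/-- products of ridge functions are log-concave -/
theorem lcn_ridge {n N : ℕ} (v : Fin N → Eu (Fin n)) (h : Fin N → ℝ → ℝ)
    (h0 : ∀ i s, 0 ≤ h i s) (hlc : ∀ i, ∀ x y t : ℝ, 0 < t → t < 1 →
      h i x ^ (1 - t) * h i y ^ t ≤ h i ((1 - t) * x + t * y)) :
    LCn fun x => ∏ i, h i ⟪v i, x⟫_ℝ := by
  intro x y t ht0 ht1
  simp only
  rw [← Real.finsetProd_rpow _ _ fun i _ => h0 i _, ← Real.finsetProd_rpow _ _ fun i _ => h0 i _,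
    ← Finset.prod_mul_distrib]
  refine Finset.prod_le_prod (fun i _ => mul_nonneg (Real.rpow_nonneg (h0 i _) _)
    (Real.rpow_nonneg (h0 i _) _)) fun i _ => ?_
  have e : ⟪v i, (1 - t) • x + t • y⟫_ℝ = (1 - t) * ⟪v i, x⟫_ℝ + t * ⟪v i, y⟫_ℝ := by
    rw [inner_add_right, real_inner_smul_right, real_inner_smul_right]
  rw [e]
  exact hlc i _ _ t ht0 ht1

/-- log-concave functions on the line are measurable -/
theorem meas_one {h : ℝ → ℝ} (h0 : ∀ s, 0 ≤ h s)
    (hlc : ∀ x y t : ℝ, 0 < t → t < 1 → h x ^ (1 - t) * h y ^ t ≤ h ((1 - t) * x + t * y)) :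
    Measurable h := by
  refine measurable_of_Ici fun c => ?_
  rcases le_or_gt c 0 with hc | hc
  · have : h ⁻¹' Ici c = univ := by
      ext s
      simp [hc.trans (h0 s)]
    rw [this]
    exact MeasurableSet.univ
  · have h1 : Convex ℝ (h ⁻¹' Ici c) := by
      intro x hx y hy a b ha hb hab
      rw [mem_preimage, mem_Ici] at hx hy ⊢
      rcases eq_or_lt_of_le ha with h3 | h3
      · have : b = 1 := by linarith
        rw [← h3, this, zero_smul, one_smul, zero_add]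
        exact hy
      rcases eq_or_lt_of_le hb with h4 | h4
      · have : a = 1 := by linarith
        rw [← h4, this, zero_smul, one_smul, add_zero]
        exact hx
      have e : a = 1 - b := by linarith
      have h2 := hlc x y b h4 (by linarith)
      rw [e, smul_eq_mul, smul_eq_mul]
      refine le_trans ?_ h2
      calc c = c ^ (1 - b) * c ^ b := by
            rw [← Real.rpow_add hc, sub_add_cancel, Real.rpow_one]
        _ ≤ h x ^ (1 - b) * h y ^ b :=
            mul_le_mul (Real.rpow_le_rpow hc.le hx (by linarith)) (Real.rpow_le_rpow hc.le hy h4.le)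
              (Real.rpow_nonneg hc.le _) (Real.rpow_nonneg (hc.le.trans hx) _)
    exact h1.ordConnected.measurableSet

end Pool.Agent.Y506.PV
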