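import Pool.Agent.Y506.RG.Wt

/-!
# Projections and homogeneous bodies: statements
-/

set_option autoImplicit false

namespace Pool.Agent.Y506.PV

open MeasureTheory Set Filter Topology
open scoped ENNReal InnerProductSpace
open Pool.Agent.W695.KH (Eu EU EV VV Sm Pot Uu)
open Pool.Agent.Y506.RG (EW VW Star LC1 GD Adm)

/-- concentration of Lipschitz functions for linear images of the measure with density `w` -/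
def CcW {n : ℕ} (κ δ : ℝ) (w : Eu (Fin n) → ℝ) : Prop :=
  ∀ k : ℕ, k ≤ n → ∀ (T : Eu (Fin n) →ₗ[ℝ] Eu (Fin k)) (s : ℝ), 0 < s →
  (∀ θ : Eu (Fin k), ‖θ‖ = 1 → VW w (fun x => ⟪T x, θ⟫_ℝ) ≤ s) →
  ∀ v : Eu (Fin k) → ℝ, ContDiff ℝ 1 v → (∀ y, |v y| ≤ 1) →
  (∀ y, ‖fderiv ℝ v y‖ ≤ κ / Real.sqrt s) → VW w (fun x => v (T x)) ≤ δ

/-- indicator function of a set, as a weight -/
noncomputable def ind {n : ℕ} (K : Set (Eu (Fin n))) : Eu (Fin n) → ℝ := K.indicator fun _ => 1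

/-- log-concave weights -/
def LCn {n : ℕ} (w : Eu (Fin n) → ℝ) : Prop := ∀ x y, ∀ t : ℝ, 0 < t → t < 1 →
  w x ^ (1 - t) * w y ^ t ≤ w ((1 - t) • x + t • y)

/-- `φ` is concave on the support of `w` -/
def ConcS {n : ℕ} (w φ : Eu (Fin n) → ℝ) : Prop := ∀ x y, ∀ t : ℝ, 0 < t → t < 1 → 0 < w x →
  0 < w y → (1 - t) * φ x + t * φ y ≤ φ ((1 - t) • x + t • y)

/-! ### limits -/

def S_LIMC : Prop := ∀ (n : ℕ) (κ δ : ℝ) (w : Eu (Fin n) → ℝ) (W : ℕ → Eu (Fin n) → ℝ), 0 < κ →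
  Integrable (fun x => (1 + ‖x‖ ^ 2) * w x) → 0 < ∫ x, w x →
  (∀ j, Integrable (fun x => (1 + ‖x‖ ^ 2) * W j x)) →
  Tendsto (fun j => ∫ x, (1 + ‖x‖ ^ 2) * |W j x - w x|) atTop (𝓝 0) →
  (∀ᶠ j in atTop, CcW κ δ (W j)) → CcW (κ / 2) δ w

def S_CAPX : Prop := ∀ (N n : ℕ) (κ δ : ℝ) (ell : Eu (Fin n) →ₗ[ℝ] Eu (Fin N)), 0 < κ →
  (∀ x, ell x = 0 → x = 0) → (∀ i, ∃ x, ell x i ≠ 0) →
  (∀ H : Fin N → ℝ → ℝ, (∀ i, GD (H i)) → CcW κ δ fun x => ∏ i, H i (ell x i)) →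
  ∀ h : Fin N → ℝ → ℝ, (∀ i, LC1 (h i)) →
  Integrable (fun x => (1 + ‖x‖ ^ 2) * ∏ i, h i (ell x i)) → 0 < ∫ x, ∏ i, h i (ell x i) →
  CcW (κ / 4) δ fun x => ∏ i, h i (ell x i)

/-! ### level sets of concave functions -/

def S_LEV : Prop := ∀ (n : ℕ) (w φ : Eu (Fin n) → ℝ), Adm w → LCn w → Measurable φ → ConcS w φ →
  ∀ α β t : ℝ, 0 < t → t < 1 →
  (∫ x in {x | α ≤ φ x}, w x) ^ (1 - t) * (∫ x in {x | β ≤ φ x}, w x) ^ t ≤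
    ∫ x in {x | (1 - t) * α + t * β ≤ φ x}, w x

/-- fourth moments of linear functionals -/
def S_M4 : Prop := ∃ C : ℝ, 1 ≤ C ∧ ∀ (n : ℕ) (w : Eu (Fin n) → ℝ), Adm w → LCn w →
  ∀ θ : Eu (Fin n), Integrable (fun x => (⟪x, θ⟫_ℝ - EW w fun x => ⟪x, θ⟫_ℝ) ^ 4 * w x) ∧
  EW w (fun x => (⟪x, θ⟫_ℝ - EW w fun x => ⟪x, θ⟫_ℝ) ^ 4) ≤ C * (VW w fun x => ⟪x, θ⟫_ℝ) ^ 2

/-- moments of nonnegative concave functions -/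
def S_UM : Prop := ∀ (n : ℕ) (w u : Eu (Fin n) → ℝ), Adm w → LCn w → Measurable u →
  (∀ x, 0 ≤ u x) → ConcS w u → Integrable (fun x => u x * w x) → 0 < ∫ x, u x * w x →
  ∃ τ : ℝ, 0 < τ ∧ (∀ ε : ℝ, 0 < ε → ∫ x in {x | u x < ε * τ}, w x ≤ ε * ∫ x, w x) ∧
  EW w u ≤ 2 * τ ∧ τ / 2 ≤ EW w u ∧ Integrable (fun x => u x ^ 2 * w x) ∧
  EW w (fun x => u x ^ 2) ≤ 3 * τ ^ 2

/-- removing a concave density -/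
def S_DEN : Prop := ∀ δ : ℝ, 0 < δ → ∃ δ0 c : ℝ, 0 < δ0 ∧ 0 < c ∧
  ∀ (n : ℕ) (κ : ℝ) (w u : Eu (Fin n) → ℝ), 0 < κ → Adm w → LCn w → Measurable u →
  (∀ x, 0 ≤ u x) → ConcS w u → Adm (fun x => u x * w x) → CcW κ δ0 (fun x => u x * w x) →
  CcW (c * κ) δ w

/-! ### projections -/

/-- dropping the first coordinate -/
noncomputable def drp (n : ℕ) : Eu (Fin (n + 1)) →ₗ[ℝ] Eu (Fin n) where
  toFun x := WithLp.toLp 2 fun i => x i.succ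
  map_add' x y := by ext; simp
  map_smul' c x := by ext; simp

def S_PRJ : Prop := ∀ (n : ℕ) (K : Set (Eu (Fin (n + 1)))), IsCompact K → Convex ℝ K →
  (interior K).Nonempty → ∃ u : Eu (Fin n) → ℝ, Measurable u ∧ (∀ x, 0 ≤ u x) ∧
  (∀ x, x ∉ drp n '' K → u x = 0) ∧ ConcS (ind (drp n '' K)) u ∧ (∃ B : ℝ, ∀ x, u x ≤ B) ∧
  ∀ F : Eu (Fin n) → ℝ, Continuous F → ∫ z in K, F (drp n z) = ∫ x, F x * u x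

def S_CMP : Prop := ∀ (m : ℕ) (A : Eu (Fin (m + 1)) →ₗ[ℝ] Eu (Fin m)), Function.Surjective A →
  ∃ C : Eu (Fin (m + 1)) ≃L[ℝ] Eu (Fin (m + 1)), ∀ x, A x = drp m (C x)

def S_FAC : Prop := ∀ (m n : ℕ) (A : Eu (Fin (m + 1)) →ₗ[ℝ] Eu (Fin n)), Function.Surjective A →
  n ≤ m → ∃ (A1 : Eu (Fin (m + 1)) →ₗ[ℝ] Eu (Fin m)) (A2 : Eu (Fin m) →ₗ[ℝ] Eu (Fin n)),
  Function.Surjective A1 ∧ Function.Surjective A2 ∧ ∀ x, A x = A2 (A1 x)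

/-! ### positions -/

def S_ISO : Prop := ∀ (n : ℕ) (w : Eu (Fin n) → ℝ), Adm w →
  ∃ A : Eu (Fin n) ≃L[ℝ] Eu (Fin n), ∀ θ : Eu (Fin n), VW w (fun x => ⟪A x, θ⟫_ℝ) = ‖θ‖ ^ 2

/-! ### homogeneous bodies -/

/-- the weight `exp (-Φ)` -/
noncomputable def wPhi {n : ℕ} (Φ : Eu (Fin n) → ℝ≥0∞) (x : Eu (Fin n)) : ℝ :=
  if Φ x = ⊤ then 0 else Real.exp (-(Φ x).toReal)

/-- homogeneous functions of degree `p` with a bounded unit ball of positive volume -/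
structure Hom {n : ℕ} (p : ℝ) (Φ : Eu (Fin n) → ℝ≥0∞) : Prop where
  meas : Measurable Φ
  hom : ∀ (r : ℝ) (x : Eu (Fin n)), 0 < r → Φ (r • x) = ENNReal.ofReal (r ^ p) * Φ x
  bdd : Bornology.IsBounded {x | Φ x ≤ 1}
  vol : 0 < volume {x | Φ x ≤ 1}

/-- `exp (-Φ)` is a mixture of the uniform measures on the dilates of `{Φ ≤ 1}` -/
def S_MIX : Prop := ∀ (p : ℝ) (n : ℕ) (Φ : Eu (Fin n) → ℝ≥0∞), 1 ≤ p → 1 ≤ n → Hom p Φ →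
  ∀ F : Eu (Fin n) → ℝ≥0∞, Measurable F → ∫⁻ x, F x * ENNReal.ofReal (wPhi Φ x) =
    ∫⁻ r in Ioi (0 : ℝ), ENNReal.ofReal (p * r ^ ((n : ℝ) + p - 1) * Real.exp (-(r ^ p))) *
      ∫⁻ y in {x | Φ x ≤ 1}, F (r • y)

/-- moments of the radial mixture -/
def S_GAM : Prop := ∀ (p : ℝ) (n : ℕ), 1 ≤ p → 1 ≤ n → ∃ R B : ℝ, 0 < R ∧ 0 < B ∧
  ∫⁻ r in Ioi (0 : ℝ), ENNReal.ofReal (p * r ^ ((n : ℝ) + p - 1) * Real.exp (-(r ^ p))) =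
    ENNReal.ofReal B ∧
  ∫⁻ r in Ioi (0 : ℝ), ENNReal.ofReal ((r - R) ^ 2) *
    ENNReal.ofReal (p * r ^ ((n : ℝ) + p - 1) * Real.exp (-(r ^ p))) ≤
    ENNReal.ofReal (p / n * R ^ 2 * B) ∧
  ∫⁻ r in Ioi (0 : ℝ), ENNReal.ofReal (r ^ 2) *
    ENNReal.ofReal (p * r ^ ((n : ℝ) + p - 1) * Real.exp (-(r ^ p))) ≤
    ENNReal.ofReal (4 * R ^ 2 * B) ∧
  ENNReal.ofReal (R ^ 2 * B / 2) ≤ ∫⁻ r in Ioi (0 : ℝ), ENNReal.ofReal (r ^ 2) *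
    ENNReal.ofReal (p * r ^ ((n : ℝ) + p - 1) * Real.exp (-(r ^ p)))

/-- from `exp (-Φ)` to `{Φ ≤ 1}` -/
def S_RAD : Prop := ∀ (p δ κ : ℝ), 1 ≤ p → 0 < δ → 0 < κ → ∃ κ' : ℝ, 0 < κ' ∧
  ∀ (n : ℕ) (Φ : Eu (Fin n) → ℝ≥0∞), 1 ≤ n → Hom p Φ →
  Adm (wPhi Φ) ∧ Adm (ind {x | Φ x ≤ 1}) ∧
  (CcW κ (δ / 6) (wPhi Φ) → CcW κ' δ (ind {x | Φ x ≤ 1}))

/-- `a s_+ ^ p + b s_- ^ p`, with coefficients in `[0, ∞]` -/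
noncomputable def phi (p : ℝ) (a b : ℝ≥0∞) (s : ℝ) : ℝ≥0∞ :=
  a * ENNReal.ofReal (max s 0 ^ p) + b * ENNReal.ofReal (max (-s) 0 ^ p)

/-- `exp (-(a s_+ ^ p + b s_- ^ p))` -/
noncomputable def hphi (p : ℝ) (a b : ℝ≥0∞) (s : ℝ) : ℝ :=
  if phi p a b s = ⊤ then 0 else Real.exp (-(phi p a b s).toReal)

/-- `∑ a_i ⟪v_i, x⟫_+ ^ p + b_i ⟪v_i, x⟫_- ^ p` -/
noncomputable def PhS {n N : ℕ} (p : ℝ) (v : Fin N → Eu (Fin n)) (a b : Fin N → ℝ≥0∞)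
    (x : Eu (Fin n)) : ℝ≥0∞ := ∑ i, phi p (a i) (b i) ⟪v i, x⟫_ℝ

def S_PHI : Prop := ∀ p : ℝ, 1 ≤ p → (∀ a b : ℝ≥0∞, LC1 (hphi p a b)) ∧
  ∀ (n N : ℕ) (v : Fin N → Eu (Fin n)) (a b : Fin N → ℝ≥0∞),
  (∀ x, wPhi (PhS p v a b) x = ∏ i, hphi p (a i) (b i) ⟪v i, x⟫_ℝ) ∧
  IsClosed {x | PhS p v a b x ≤ 1} ∧ Convex ℝ {x | PhS p v a b x ≤ 1} ∧
  (Bornology.IsBounded {x | PhS p v a b x ≤ 1} → (interior {x | PhS p v a b x ≤ 1}).Nonempty →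
    Hom p (PhS p v a b) ∧ ∀ x, (∀ i, ⟪v i, x⟫_ℝ = 0) → x = 0)

/-! ### consequences of the functional inequality -/

/-- concentration gives the functional inequality -/
def S_STB : Prop := ∀ κ : ℝ, 0 < κ → ∃ c : ℝ, 0 < c ∧ ∀ (n : ℕ) (K : Set (Eu (Fin n))),
  IsCompact K → Convex ℝ K → (interior K).Nonempty → CcW κ (1 / 25) (ind K) → Star c (ind K)

/-- hyperplane sections -/
def S_HYP : Prop := ∃ C : ℝ, 0 < C ∧ ∀ (n : ℕ), 1 ≤ n → ∀ Ω : Set (Eu (Fin n)), IsOpen Ω →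
  Convex ℝ Ω → Bornology.IsBounded Ω → (0 : Eu (Fin n)) ∈ Ω → (∀ x ∈ Ω, -x ∈ Ω) →
  ∀ c : ℝ, 0 < c → Star c (ind (closure Ω)) → ∃ a : Eu (Fin n), a ≠ 0 ∧
  ∀ E : Set (Eu (Fin n)), MeasurableSet E → E ⊆ Ω → volume E = volume Ω / 2 →
  ∀ P : ℝ, Pool.Agent.W695.KH.PerLe Ω E P → Pool.Agent.W695.KH.sec Ω a ≤ ENNReal.ofReal (C * c * P)

/-- halfspaces -/
def S_CHE : Prop := ∀ c : ℝ, 0 < c → ∃ c' : ℝ, 0 < c' ∧ ∀ (n : ℕ) (K : Set (Eu (Fin n))),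
  IsCompact K → Convex ℝ K → (interior K).Nonempty → Star c (ind K) →
  ∀ (μ : Measure (Eu (Fin n))), μ = (volume K)⁻¹ • volume.restrict K → ∀ t : ℝ≥0∞,
  (∀ (a : Eu (Fin n)) (b : ℝ), a ≠ 0 → t * min (μ {x | ⟪a, x⟫_ℝ ≤ b}) (1 - μ {x | ⟪a, x⟫_ℝ ≤ b}) ≤
    liminf (fun ε : ℝ => (μ (Metric.thickening ε {x | ⟪a, x⟫_ℝ ≤ b}) -
      μ {x | ⟪a, x⟫_ℝ ≤ b}) / ENNReal.ofReal ε) (𝓝[>] 0)) →
  ∀ S : Set (Eu (Fin n)), μ S = 1 / 2 → ENNReal.ofReal c' * t ≤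
    liminf (fun ε : ℝ => (μ (Metric.thickening ε S) - μ S) / ENNReal.ofReal ε) (𝓝[>] 0)

end Pool.Agent.Y506.PV
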