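import Pool.Agent.Y506.PV.Img
import Pool.Agent.Y506.PV.Pw
import Pool.Agent.Y506.PV.Stm2

/-!
# The class of bodies
-/

set_option autoImplicit false

namespace Pool.Agent.Y506.PV

open MeasureTheory Set Filter Topology
open scoped ENNReal InnerProductSpace
open Pool.Agent.W695.KH (Eu EU EV VV Sm Pot Uu)
open Pool.Agent.Y506.RG

/-- intersections of slabs -/
def SlabB (q : ℕ) {m : ℕ} (K : Set (Eu (Fin m))) : Prop :=
  ∃ N : ℕ, N ≤ m + q ∧ ∃ (v : Fin N → Eu (Fin m)) (I : Fin N → Set ℝ), (∀ i, IsClosed (I i)) ∧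
    (∀ i, (I i).OrdConnected) ∧ K = {x | ∀ i, ⟪v i, x⟫_ℝ ∈ I i}

/-- homogeneous sums -/
def SumB (q : ℕ) (p : ℝ) {m : ℕ} (K : Set (Eu (Fin m))) : Prop :=
  ∃ N : ℕ, N ≤ m + q ∧ ∃ (v : Fin N → Eu (Fin m)) (a b : Fin N → ℝ≥0∞),
    K = {x | PhS p v a b x ≤ 1}

/-- sections of products of power balls -/
def PowB (q : ℕ) {m : ℕ} (K : Set (Eu (Fin m))) : Prop :=
  ∃ (M : ℕ) (k : Fin M → ℕ), ∑ i, k i ≤ m + q ∧ (∀ i, 0 < k i) ∧
    ∃ (e : ∀ i, Fin (k i) → ℝ) (L : ∀ i, Fin (k i) → (EuclideanSpace ℝ (Fin m) →L[ℝ] ℝ)),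
    (∀ i j, 2 ≤ e i j) ∧ K = Pool.Agent.Y506.KS.PB e L

/-- sections of products of symmetric bodies of dimensions at most `B` -/
def BlkB (q B : ℕ) {m : ℕ} (K : Set (Eu (Fin m))) : Prop :=
  ∃ (M : ℕ) (k : Fin M → ℕ), ∑ i, k i ≤ m + q ∧ (∀ i, k i ≤ B) ∧
    ∃ (Q : ∀ i, EuclideanSpace ℝ (Fin m) →L[ℝ] Pool.Agent.Y506.KS.Xb k i)
      (D : ∀ i, Set (Pool.Agent.Y506.KS.Xb k i)),
    (∀ i, Pool.Agent.Y506.KS.SB (D i)) ∧ (∀ i, IsClosed (D i)) ∧ K = Pool.Agent.Y506.KS.KK Q D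

/-- the bodies whose images are considered -/
def Base (q B : ℕ) (p : ℝ) {m : ℕ} (K : Set (Eu (Fin m))) : Prop :=
  Bornology.IsBounded K ∧ (interior K).Nonempty ∧ (SlabB q K ∨ SumB q p K ∨ PowB q K ∨ BlkB q B K)

theorem slab_closed {m N : ℕ} (v : Fin N → Eu (Fin m)) (I : Fin N → Set ℝ)
    (hI : ∀ i, IsClosed (I i)) : IsClosed {x : Eu (Fin m) | ∀ i, ⟪v i, x⟫_ℝ ∈ I i} := by
  have h1 : {x : Eu (Fin m) | ∀ i, ⟪v i, x⟫_ℝ ∈ I i} =
      ⋂ i, (fun x : Eu (Fin m) => ⟪v i, x⟫_ℝ) ⁻¹' (I i) := by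
    ext x
    simp
  rw [h1]
  refine isClosed_iInter fun i => (hI i).preimage ?_
  fun_prop

theorem slab_convex {m N : ℕ} (v : Fin N → Eu (Fin m)) (I : Fin N → Set ℝ)
    (hI : ∀ i, (I i).OrdConnected) : Convex ℝ {x : Eu (Fin m) | ∀ i, ⟪v i, x⟫_ℝ ∈ I i} := by
  intro x hx y hy a b ha hb hab i
  have h1 : ⟪v i, a • x + b • y⟫_ℝ = a • ⟪v i, x⟫_ℝ + b • ⟪v i, y⟫_ℝ := by
    rw [inner_add_right, real_inner_smul_right, real_inner_smul_right, smul_eq_mul, smul_eq_mul]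
  rw [h1]
  exact (hI i).convex (hx i) (hy i) ha hb hab

theorem Base.closed (hPHI : S_PHI) {q B : ℕ} {p : ℝ} (hp : 1 ≤ p) {m : ℕ} {K : Set (Eu (Fin m))}
    (h : Base q B p K) : IsClosed K := by
  obtain ⟨-, -, h1 | h1 | h1 | h1⟩ := h
  · obtain ⟨N, hN, v, I, hI1, hI2, rfl⟩ := h1
    exact slab_closed v I hI1
  · obtain ⟨N, hN, v, a, b, rfl⟩ := h1
    exact ((hPHI p hp).2 m N v a b).2.1
  · obtain ⟨M, k, hk, hk0, e, L, he, rfl⟩ := h1
    exact Pool.Agent.Y506.KS.PB_closed he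
  · obtain ⟨M, k, hk, hkB, Q, D, hD, hc, rfl⟩ := h1
    exact KK_closed' hc

theorem Base.convex (hPHI : S_PHI) {q B : ℕ} {p : ℝ} (hp : 1 ≤ p) {m : ℕ} {K : Set (Eu (Fin m))}
    (h : Base q B p K) : Convex ℝ K := by
  obtain ⟨-, -, h1 | h1 | h1 | h1⟩ := h
  · obtain ⟨N, hN, v, I, hI1, hI2, rfl⟩ := h1
    exact slab_convex v I hI2
  · obtain ⟨N, hN, v, a, b, rfl⟩ := h1
    exact ((hPHI p hp).2 m N v a b).2.2.1
  · obtain ⟨M, k, hk, hk0, e, L, he, rfl⟩ := h1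
    exact Pool.Agent.Y506.KS.PB_conv he
  · obtain ⟨M, k, hk, hkB, Q, D, hD, hc, rfl⟩ := h1
    exact KK_conv' hD

theorem Base.compact (hPHI : S_PHI) {q B : ℕ} {p : ℝ} (hp : 1 ≤ p) {m : ℕ}
    {K : Set (Eu (Fin m))} (h : Base q B p K) : IsCompact K :=
  Metric.isCompact_of_isClosed_isBounded (h.closed hPHI hp) h.1

theorem ker_triv {m : ℕ} {K : Set (Eu (Fin m))} (hb : Bornology.IsBounded K) (x0 x : Eu (Fin m))
    (h : ∀ c : ℝ, x0 + c • x ∈ K) : x = 0 := by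
  by_contra hne
  obtain ⟨R, hR⟩ := hb.exists_norm_le
  have hxn : 0 < ‖x‖ := norm_pos_iff.2 hne
  have h1 := hR _ (h ((R + ‖x0‖ + 1) / ‖x‖))
  have h0 := hR _ (h 0)
  rw [zero_smul, add_zero] at h0
  have hR0 : 0 ≤ R := (norm_nonneg _).trans h0
  have h2 : ‖((R + ‖x0‖ + 1) / ‖x‖) • x‖ = R + ‖x0‖ + 1 := by
    rw [norm_smul, Real.norm_eq_abs, abs_of_nonneg (by positivity), div_mul_cancel₀ _ hxn.ne']
  have h3 : ‖((R + ‖x0‖ + 1) / ‖x‖) • x‖ ≤ ‖x0 + ((R + ‖x0‖ + 1) / ‖x‖) • x‖ + ‖x0‖ := by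
    have := norm_sub_le (x0 + ((R + ‖x0‖ + 1) / ‖x‖) • x) x0
    rwa [add_sub_cancel_left] at this
  linarith

theorem ind_lc1 {I : Set ℝ} (hc : MeasurableSet I) (hI : I.OrdConnected) :
    LC1 (I.indicator fun _ => (1 : ℝ)) := by
  refine ⟨fun s => indicator_nonneg (fun _ _ => zero_le_one) s, measurable_const.indicator hc,
    fun x y t h0 h1 => ?_⟩
  by_cases hx : x ∈ I
  · by_cases hy : y ∈ I
    · have h2 : (1 - t) * x + t * y ∈ I := by
        have := hI.convex hx hy (by linarith : 0 ≤ 1 - t) h0.le (by ring)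
        simpa [smul_eq_mul] using this
      rw [indicator_of_mem hx, indicator_of_mem hy, indicator_of_mem h2, Real.one_rpow,
        Real.one_rpow, mul_one]
    · rw [indicator_of_notMem hy, Real.zero_rpow h0.ne', mul_zero]
      exact indicator_nonneg (fun _ _ => zero_le_one) _
  · rw [indicator_of_notMem hx, Real.zero_rpow (by linarith : (1 - t) ≠ 0), zero_mul]
    exact indicator_nonneg (fun _ _ => zero_le_one) _

/-- the functionals as a linear map -/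
noncomputable def ellv {m N : ℕ} (v : Fin N → Eu (Fin m)) : Eu (Fin m) →ₗ[ℝ] Eu (Fin N) where
  toFun x := WithLp.toLp 2 fun i => ⟪v i, x⟫_ℝ
  map_add' x y := by ext; simp [inner_add_right]
  map_smul' c x := by ext; simp [real_inner_smul_right]

theorem ellv_apply {m N : ℕ} (v : Fin N → Eu (Fin m)) (x : Eu (Fin m)) (i : Fin N) :
    ellv v x i = ⟪v i, x⟫_ℝ := rfl

/-- what is used about products of ridge functions -/
def S_CCL : Prop := ∀ (q : ℕ) (δ : ℝ), 0 < δ → ∃ κ : ℝ, 0 < κ ∧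
  ∀ (n N : ℕ), 1 ≤ n → N ≤ n + q → ∀ (ell : Eu (Fin n) →ₗ[ℝ] Eu (Fin N)),
  (∀ x, ell x = 0 → x = 0) → ∀ h : Fin N → ℝ → ℝ, (∀ i, LC1 (h i)) →
  Integrable (fun x => (1 + ‖x‖ ^ 2) * ∏ i, h i (ell x i)) →
  0 < ∫ x, ∏ i, h i (ell x i) → CcW κ δ fun x => ∏ i, h i (ell x i)

/-- concentration for base bodies -/
theorem cc_base (hCCL : S_CCL) (hPHI : S_PHI) (hRAD : S_RAD) (hISO : S_ISO) (q B : ℕ) (p : ℝ)
    (hp : 1 ≤ p) (δ : ℝ) (hδ : 0 < δ) : ∃ κ : ℝ, 0 < κ ∧ ∀ (m : ℕ) (K : Set (Eu (Fin m))), 1 ≤ m →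
    Base q B p K → CcW κ δ (ind K) := by
  obtain ⟨κ1, hκ1, H1⟩ := hCCL q δ hδ
  obtain ⟨κ2, hκ2, H2⟩ := hCCL q (δ / 6) (by positivity)
  obtain ⟨κ3, hκ3, H3⟩ := hRAD p δ κ2 hp hδ hκ2
  obtain ⟨κ4, hκ4⟩ : ∃ κ4 : ℝ, κ4 = Real.sqrt (δ / Pool.Agent.Y506.KS.CP q) := ⟨_, rfl⟩
  obtain ⟨κ5, hκ5⟩ : ∃ κ5 : ℝ, κ5 = Real.sqrt (δ / Pool.Agent.Y506.KS.CB B q) := ⟨_, rfl⟩
  have hκ40 : 0 < κ4 := by
    rw [hκ4]; exact Real.sqrt_pos.2 (div_pos hδ (Pool.Agent.Y506.KS.CP_pos q))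
  have hκ50 : 0 < κ5 := by
    rw [hκ5]; exact Real.sqrt_pos.2 (div_pos hδ (Pool.Agent.Y506.KS.CB_pos B q))
  refine ⟨min (min κ1 κ3) (min κ4 κ5), lt_min (lt_min hκ1 hκ3) (lt_min hκ40 hκ50),
    fun m K hm hK => ?_⟩
  have hcl := hK.closed hPHI hp
  obtain ⟨hb, hint, h1 | h1 | h1 | h1⟩ := hK
  · obtain ⟨N, hN, v, I, hI1, hI2, hKe⟩ := h1
    have hA := adm_ind K hcl.measurableSet hb (vol_pos hint)
    have hw : ∀ x, ∏ i, (I i).indicator (fun _ => (1 : ℝ)) (ellv v x i) = ind K x := by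
      intro x
      unfold ind
      simp only [ellv_apply]
      by_cases hx : x ∈ K
      · rw [indicator_of_mem hx]
        refine Finset.prod_eq_one fun i _ => ?_
        have h2 : ⟪v i, x⟫_ℝ ∈ I i := by
          rw [hKe] at hx
          exact hx i
        rw [indicator_of_mem h2]
      · rw [indicator_of_notMem hx]
        rw [hKe, mem_ofPred_eq, not_forall] at hx
        obtain ⟨i, hi⟩ := hx
        refine Finset.prod_eq_zero (Finset.mem_univ i) ?_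
        rw [indicator_of_notMem hi]
    have key := H1 m N hm hN (ellv v) (fun x hx => by
      obtain ⟨x0, hx0⟩ := hint
      refine ker_triv hb x0 x fun c => ?_
      have hx0' := interior_subset hx0
      rw [hKe] at hx0' ⊢
      intro i
      have h3 : ⟪v i, x⟫_ℝ = 0 := by
        rw [← ellv_apply, hx]
        rfl
      rw [inner_add_right, real_inner_smul_right, h3, mul_zero, add_zero]
      exact hx0' i) (fun i => (I i).indicator fun _ => (1 : ℝ))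
      (fun i => ind_lc1 (hI1 i).measurableSet (hI2 i)) (by simpa only [hw] using hA.int)
      (by simpa only [hw] using hA.pos)
    simp only [hw] at key
    exact CcW.mono ((min_le_left _ _).trans (min_le_left _ _)) key
  · obtain ⟨N, hN, v, a, b, hKe⟩ := h1
    obtain ⟨hLC, hrest⟩ := hPHI p hp
    obtain ⟨hprod, -, -, hhom⟩ := hrest m N v a b
    obtain ⟨hHom, hker⟩ := hhom (by rw [← hKe]; exact hb) (by rw [← hKe]; exact hint)
    obtain ⟨hAw, -, himp⟩ := H3 m (PhS p v a b) hm hHom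
    have hw : ∀ x, ∏ i, hphi p (a i) (b i) (ellv v x i) = wPhi (PhS p v a b) x := by
      intro x
      rw [hprod x]
      rfl
    have key := H2 m N hm hN (ellv v) (fun x hx => by
      refine hker x fun i => ?_
      rw [← ellv_apply, hx]
      rfl) (fun i => hphi p (a i) (b i)) (fun i => hLC (a i) (b i))
      (by simpa only [hw] using hAw.int) (by simpa only [hw] using hAw.pos)
    simp only [hw] at key
    rw [hKe]
    exact CcW.mono ((min_le_left _ _).trans (min_le_right _ _)) (himp key)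
  · obtain ⟨M, k, hk, hk0, e, L, he, rfl⟩ := h1
    have h2 := cc_PB hISO e L hk0 he q hk hb δ hδ
    rw [← hκ4] at h2
    exact CcW.mono ((min_le_right _ _).trans (min_le_left _ _)) h2
  · obtain ⟨M, k, hk, hkB, Q, D, hD, hc, rfl⟩ := h1
    have h2 := cc_KK hISO Q D hD hc B hkB q hk hb hint δ hδ
    rw [← hκ5] at h2
    exact CcW.mono ((min_le_right _ _).trans (min_le_right _ _)) h2

/-- **the functional inequality for images of base bodies** -/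
theorem star_img (hCCL : S_CCL) (hPHI : S_PHI) (hRAD : S_RAD) (hPRJ : S_PRJ) (hDEN : S_DEN)
    (hCMP : S_CMP) (hFAC : S_FAC) (hSTB : S_STB) (hISO : S_ISO) (q r B : ℕ) (p : ℝ) (hp : 1 ≤ p) :
    ∃ c : ℝ, 0 < c ∧ ∀ (n m : ℕ) (K : Set (Eu (Fin m))) (A : Eu (Fin m) →ₗ[ℝ] Eu (Fin n)),
    1 ≤ n → m ≤ n + r → Base q B p K → Function.Surjective A → IsCompact (A '' K) ∧
    Convex ℝ (A '' K) ∧ (interior (A '' K)).Nonempty ∧ Star c (ind (A '' K)) := by
  obtain ⟨c, hc, H⟩ := max_const (fun d c => ∀ (n : ℕ) (K : Set (Eu (Fin (n + d))))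
      (A : Eu (Fin (n + d)) →ₗ[ℝ] Eu (Fin n)), 1 ≤ n → Base q B p K → Function.Surjective A →
      Star c (ind (A '' K)))
    (fun d => by
      obtain ⟨δ0, c0, hδ0, hc0, H0⟩ := cc_img hPRJ hDEN hCMP hFAC d (1 / 25) (by norm_num)
      obtain ⟨κ, hκ, H1⟩ := cc_base hCCL hPHI hRAD hISO q B p hp δ0 hδ0
      obtain ⟨c, hc, H2⟩ := hSTB (c0 * κ) (by positivity)
      refine ⟨c, hc, fun n K A hn hK hA => ?_⟩
      have hcp := hK.compact hPHI hp
      have hcv := hK.convex hPHI hp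
      have hAc : Continuous A := A.continuous_of_finiteDimensional
      exact H2 n (A '' K) (hcp.image hAc) (hcv.linear_image A) (int_image hK.2.1 A hA)
        (H0 n κ K A hκ hcp hcv hK.2.1 hA (H1 (n + d) K (by omega) hK)))
    (fun d c c' hcc h n K A hn hK hA => Star.mono hcc
      (fun x => indicator_nonneg (fun _ _ => zero_le_one) x) (h n K A hn hK hA)) r
  refine ⟨c, hc, fun n m K A hn hm hK hA => ?_⟩
  have hnm : n ≤ m := by
    have := LinearMap.finrank_le_finrank_of_surjective (f := A) hA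
    simpa using this
  obtain ⟨d, rfl⟩ : ∃ d, m = n + d := ⟨m - n, by omega⟩
  have hcp := hK.compact hPHI hp
  have hcv := hK.convex hPHI hp
  have hAc : Continuous A := A.continuous_of_finiteDimensional
  exact ⟨hcp.image hAc, hcv.linear_image A, int_image hK.2.1 A hA,
    H d (by omega) n K A hn hK hA⟩

end Pool.Agent.Y506.PV
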