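import Pool.Agent.Y506.PV.Stm

/-!
This file is by helper592 (module `Y592/PV/Mix`), with one proof step changed.

# Project PV: `exp (-Φ)` as a mixture of uniform measures
-/

set_option autoImplicit false

namespace Pool.Agent.Y506.PV.Mx

open MeasureTheory Set Filter Topology
open scoped ENNReal InnerProductSpace
open Pool.Agent.W695.KH (Eu)
open Pool.Agent.Y506.PV

/-- density of the radial variable -/
noncomputable def hr (p r : ℝ) : ℝ := p * r ^ (p - 1) * Real.exp (-(r ^ p))

theorem tail (p b : ℝ) (hp : 1 ≤ p) (hb : 0 ≤ b) :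
    ∫⁻ r in Ioi b, ENNReal.ofReal (hr p r) = ENNReal.ofReal (Real.exp (-(b ^ p))) := by
  have hd : ∀ x ∈ Ioi b, HasDerivAt (fun r : ℝ => -Real.exp (-(r ^ p))) (hr p x) x := by
    intro x hx
    have hx0 : x ≠ 0 := (hb.trans_lt hx).ne'
    have h1 := ((Real.hasDerivAt_rpow_const (x := x) (p := p) (Or.inl hx0)).fun_neg.exp).fun_neg
    refine h1.congr_deriv ?_
    unfold hr
    ring
  have hnn : ∀ x ∈ Ioi b, 0 ≤ hr p x := by
    intro x hx
    have hx0 : 0 < x := hb.trans_lt hx
    unfold hr
    positivity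
  have hlim : Tendsto (fun r : ℝ => -Real.exp (-(r ^ p))) atTop (𝓝 0) := by
    have h1 : Tendsto (fun r : ℝ => r ^ p) atTop atTop := tendsto_rpow_atTop (by linarith)
    have h2 := (Real.tendsto_exp_neg_atTop_nhds_zero.comp h1).neg
    rw [neg_zero] at h2
    exact h2
  have hcont : ContinuousWithinAt (fun r : ℝ => -Real.exp (-(r ^ p))) (Ici b) b := by
    have h1 : Continuous (fun r : ℝ => r ^ p) := Real.continuous_rpow_const (by linarith)
    exact (Real.continuous_exp.comp h1.neg).neg.continuousWithinAt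
  have hint := integrableOn_Ioi_deriv_of_nonneg hcont hd hnn hlim
  have hval := integral_Ioi_of_hasDerivAt_of_nonneg hcont hd hnn hlim
  rw [← ofReal_integral_eq_lintegral_ofReal hint
    ((ae_restrict_iff' measurableSet_Ioi).2 (ae_of_all _ hnn)), hval]
  congr 1
  ring

theorem layer (p : ℝ) (hp : 1 ≤ p) (c : ℝ≥0∞) :
    ENNReal.ofReal (if c = ⊤ then 0 else Real.exp (-c.toReal)) =
      ∫⁻ r in Ioi (0 : ℝ), if c ≤ ENNReal.ofReal (r ^ p) then ENNReal.ofReal (hr p r) else 0 := by
  by_cases hc : c = ⊤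
  · rw [if_pos hc, ENNReal.ofReal_zero]
    subst hc
    symm
    rw [lintegral_eq_zero_iff' (by simp)]
    refine ae_of_all _ fun r => ?_
    show (if ⊤ ≤ ENNReal.ofReal (r ^ p) then ENNReal.ofReal (hr p r) else 0) = 0
    rw [if_neg (by simp)]
  · rw [if_neg hc]
    set a := c.toReal with ha
    have ha0 : 0 ≤ a := ENNReal.toReal_nonneg
    have hca : c = ENNReal.ofReal a := (ENNReal.ofReal_toReal hc).symm
    set b : ℝ := a ^ (p⁻¹) with hb
    have hp0 : p ≠ 0 := by linarith
    have hb0 : 0 ≤ b := Real.rpow_nonneg ha0 _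
    have hbp : b ^ p = a := by
      rw [hb, ← Real.rpow_mul ha0, inv_mul_cancel₀ hp0, Real.rpow_one]
    rw [← hbp, ← tail p b hp hb0]
    have h1 : ∀ r ∈ Ioi (0 : ℝ), (if c ≤ ENNReal.ofReal (r ^ p) then
        ENNReal.ofReal (hr p r) else 0) =
        (Ici b).indicator (fun r => ENNReal.ofReal (hr p r)) r := by
      intro r hr0
      have hr0' : (0 : ℝ) < r := hr0
      rw [indicator_apply]
      congr 1
      rw [hca, ENNReal.ofReal_le_ofReal_iff (Real.rpow_nonneg hr0'.le _), ← hbp, mem_Ici]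
      exact propext (Real.rpow_le_rpow_iff hb0 hr0'.le (by linarith))
    rw [setLIntegral_congr_fun measurableSet_Ioi h1, lintegral_indicator measurableSet_Ici,
      Measure.restrict_restrict measurableSet_Ici]
    have h2 : (Ici b ∩ Ioi 0 : Set ℝ) =ᵐ[volume] (Ioi b : Set ℝ) := by
      have h3 : (Ici b ∩ Ioi 0 : Set ℝ) =ᵐ[volume] (Ioi b ∩ Ioi 0 : Set ℝ) :=
        Ioi_ae_eq_Ici.symm.inter (ae_eq_refl _)
      refine h3.trans ?_
      have h4 : (Ioi b ∩ Ioi 0 : Set ℝ) = Ioi b := by
        rw [Ioi_inter_Ioi, max_eq_left hb0]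
      exact Filter.EventuallyEq.of_eq h4
    exact (setLIntegral_congr h2).symm

theorem scale (n : ℕ) (G : Eu (Fin n) → ℝ≥0∞) (hG : Measurable G) (r : ℝ) (hr0 : 0 < r) :
    ∫⁻ x, G x = ENNReal.ofReal (r ^ n) * ∫⁻ y, G (r • y) := by
  have h1 : ∫⁻ y, G (r • y) = ENNReal.ofReal ((r ^ n)⁻¹) * ∫⁻ x, G x := by
    have h2 := lintegral_map (μ := (volume : Measure (Eu (Fin n)))) hG
      (measurable_const_smul r)
    rw [Measure.map_addHaar_smul volume hr0.ne', lintegral_smul_measure,
      finrank_euclideanSpace_fin, abs_of_pos (by positivity)] at h2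
    rw [← h2]
    rfl
  rw [h1, ← mul_assoc, ← ENNReal.ofReal_mul (by positivity), mul_inv_cancel₀ (by positivity),
    ENNReal.ofReal_one, one_mul]

theorem mix : S_MIX := by
  intro p n Φ hp hn hΦ F hF
  have hmh : Measurable fun r : ℝ => ENNReal.ofReal (hr p r) := by
    unfold hr
    fun_prop
  -- step 1
  have e1 : ∀ x, F x * ENNReal.ofReal (wPhi Φ x) =
      ∫⁻ r in Ioi (0 : ℝ), F x * (if Φ x ≤ ENNReal.ofReal (r ^ p) then
        ENNReal.ofReal (hr p r) else 0) := by
    intro x
    have h1 : Measurable fun r : ℝ => (if Φ x ≤ ENNReal.ofReal (r ^ p) then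
        ENNReal.ofReal (hr p r) else 0) := by
      refine Measurable.ite ?_ hmh measurable_const
      exact measurableSet_le measurable_const (by fun_prop)
    rw [lintegral_const_mul _ h1, ← layer p hp]
    rfl
  rw [lintegral_congr e1]
  rw [lintegral_lintegral_swap]
  · refine setLIntegral_congr_fun measurableSet_Ioi ?_
    intro r hr0
    have hr0' : (0 : ℝ) < r := hr0
    have hrp : 0 < r ^ p := Real.rpow_pos_of_pos hr0' p
    -- the set
    have e2 : ∀ x, F x * (if Φ x ≤ ENNReal.ofReal (r ^ p) then ENNReal.ofReal (hr p r) else 0) =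
        ENNReal.ofReal (hr p r) *
          {x | Φ x ≤ ENNReal.ofReal (r ^ p)}.indicator F x := by
      intro x
      rw [indicator_apply]
      by_cases hx : Φ x ≤ ENNReal.ofReal (r ^ p)
      · rw [if_pos hx, if_pos (show x ∈ {x | Φ x ≤ ENNReal.ofReal (r ^ p)} from hx), mul_comm]
      · rw [if_neg hx, if_neg (show x ∉ {x | Φ x ≤ ENNReal.ofReal (r ^ p)} from hx), mul_zero,
          mul_zero]
    have hms : MeasurableSet {x | Φ x ≤ ENNReal.ofReal (r ^ p)} :=
      measurableSet_le hΦ.meas measurable_const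
    have hmG : Measurable ({x | Φ x ≤ ENNReal.ofReal (r ^ p)}.indicator F) := hF.indicator hms
    show ∫⁻ x, F x * (if Φ x ≤ ENNReal.ofReal (r ^ p) then ENNReal.ofReal (hr p r) else 0) = _
    rw [lintegral_congr e2, lintegral_const_mul _ hmG, scale n _ hmG r hr0']
    have e3 : ∀ y, {x | Φ x ≤ ENNReal.ofReal (r ^ p)}.indicator F (r • y) =
        {x | Φ x ≤ 1}.indicator (fun y => F (r • y)) y := by
      intro y
      rw [indicator_apply, indicator_apply]
      congr 1
      rw [mem_ofPred_eq, mem_ofPred_eq, hΦ.hom r y hr0']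
      apply propext
      have h0 : ENNReal.ofReal (r ^ p) ≠ 0 := by
        rw [Ne, ENNReal.ofReal_eq_zero, not_le]
        exact hrp
      constructor
      · intro h
        by_contra hlt
        rw [not_le] at hlt
        have h4 := ENNReal.mul_lt_mul_right h0 ENNReal.ofReal_ne_top hlt
        rw [mul_one] at h4
        exact absurd h (not_le.2 h4)
      · intro h
        calc ENNReal.ofReal (r ^ p) * Φ y ≤ ENNReal.ofReal (r ^ p) * 1 := mul_le_mul_right h _
          _ = ENNReal.ofReal (r ^ p) := mul_one _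
    have hms1 : MeasurableSet {x | Φ x ≤ 1} := measurableSet_le hΦ.meas measurable_const
    rw [lintegral_congr e3, lintegral_indicator hms1, ← mul_assoc]
    congr 1
    have hpos : 0 ≤ hr p r := by
      unfold hr
      positivity
    rw [← ENNReal.ofReal_mul hpos]
    congr 1
    unfold hr
    have h5 : r ^ ((n : ℝ) + p - 1) = r ^ (p - 1) * r ^ n := by
      rw [← Real.rpow_natCast, ← Real.rpow_add hr0']
      congr 1
      ring
    rw [h5]
    ring
  · refine Measurable.aemeasurable ?_
    have h1 : Measurable fun q : Eu (Fin n) × ℝ => (if Φ q.1 ≤ ENNReal.ofReal (q.2 ^ p) then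
        ENNReal.ofReal (hr p q.2) else 0) := by
      refine Measurable.ite ?_ (hmh.comp measurable_snd) measurable_const
      exact measurableSet_le (hΦ.meas.comp measurable_fst) (by fun_prop)
    exact (hF.comp measurable_fst).mul h1

end Pool.Agent.Y506.PV.Mx
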