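import Pool.Agent.Y506.PV.All
import Pool.Agent.Y824.PV.Cap
import Pool.Agent.Y252.PV.M4
import Pool.Agent.Y941.PV.Prj
import Pool.Agent.Y388.PV.Lin
import Pool.Agent.Y506.PV.Mix
import Pool.Agent.Y388.PV.Gam
import Pool.Agent.Y363.PV.Phi
import Pool.Agent.Y151.PV.Hyp
import Pool.Agent.Y625.PV.LevUm
import Pool.Agent.Y279.PV.Den
import Pool.Agent.Y211.PV.Iso
import Pool.Agent.Y427.PV.Rad
import Pool.Agent.Y532.PV.Che
import Pool.Agent.Y179.PV.Vert

/-!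
# Images of bodies: final forms
-/

set_option autoImplicit false

namespace Pool.Agent.Y506.PV

open MeasureTheory Set Filter Topology
open scoped ENNReal InnerProductSpace
open Pool.Agent.W695.KH (Eu EU EV VV Sm Pot Uu)
open Pool.Agent.Y506.RG

theorem ccl : S_CCL := fun q δ hδ =>
  cc_lc Pool.Agent.Y210.RG.momr Pool.Agent.Z864.RG.ldk Pool.Agent.Y429.RG.spl2
    Pool.Agent.Y950.RG.expd Pool.Agent.Y950.RG.psi Pool.Agent.Y252.RG.logr
    Pool.Agent.Y445.RG.varr (Pool.Agent.Y487.RG.thr Pool.Agent.Y809.RG.jacr)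
    Pool.Agent.Y901.RG.t1 Pool.Agent.Y401.RG.t2 Pool.Agent.Y849.RG.one1
    Pool.Agent.Y497.RG.tilt Pool.Agent.Y592.RG.norm1 Pool.Agent.Y824.PV.capx q δ hδ

theorem radR : S_RAD := Pool.Agent.Y427.PV.rad Pool.Agent.Y506.PV.Mx.mix Pool.Agent.Y388.PV.gam

theorem denR : S_DEN := Pool.Agent.Y279.PV.den (Pool.Agent.Y252.PV.M4.m4 Pool.Agent.Y625.PV.lev)
  Pool.Agent.Y625.PV.um

/-- the functional inequality for images of base bodies -/
theorem fin_img (q r B : ℕ) (p : ℝ) (hp : 1 ≤ p) :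
    ∃ c : ℝ, 0 < c ∧ ∀ (n m : ℕ) (K : Set (Eu (Fin m))) (A : Eu (Fin m) →ₗ[ℝ] Eu (Fin n)),
    1 ≤ n → m ≤ n + r → Base q B p K → Function.Surjective A → IsCompact (A '' K) ∧
    Convex ℝ (A '' K) ∧ (interior (A '' K)).Nonempty ∧ Star c (ind (A '' K)) :=
  star_img ccl Pool.Agent.Y363.PV.phis radR Pool.Agent.Y941.PV.prj denR Pool.Agent.Y388.PV.cmp
    Pool.Agent.Y388.PV.fac (stb Pool.Agent.Y211.PV.iso) Pool.Agent.Y211.PV.iso q r B p hp

/-- polytopes with few vertices -/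
theorem fin_vert (q : ℕ) : ∃ c : ℝ, 0 < c ∧
    ∀ (n N : ℕ) (x : Fin N → Eu (Fin n)), 1 ≤ n → N ≤ n + q →
    (interior (convexHull ℝ (range x))).Nonempty →
    IsCompact (convexHull ℝ (range x)) ∧ Star c (ind (convexHull ℝ (range x))) :=
  star_vert ccl Pool.Agent.Y363.PV.phis radR Pool.Agent.Y941.PV.prj denR Pool.Agent.Y388.PV.cmp
    Pool.Agent.Y388.PV.fac (stb Pool.Agent.Y211.PV.iso) Pool.Agent.Y211.PV.iso
    Pool.Agent.Y179.PV.vert q

/-- symmetric polytopes with few vertices -/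
theorem fin_verts (q : ℕ) : ∃ c : ℝ, 0 < c ∧
    ∀ (n N : ℕ) (x : Fin N → Eu (Fin n)), 1 ≤ n → N ≤ n + q →
    (interior (convexHull ℝ (range x ∪ range fun i => -x i))).Nonempty →
    IsCompact (convexHull ℝ (range x ∪ range fun i => -x i)) ∧
      Star c (ind (convexHull ℝ (range x ∪ range fun i => -x i))) :=
  star_verts ccl Pool.Agent.Y363.PV.phis radR Pool.Agent.Y941.PV.prj denR Pool.Agent.Y388.PV.cmp
    Pool.Agent.Y388.PV.fac (stb Pool.Agent.Y211.PV.iso) Pool.Agent.Y211.PV.iso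
    Pool.Agent.Y179.PV.verts q

end Pool.Agent.Y506.PV
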