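import Pool.Agent.Y506.PV.Cc
import Pool.Agent.Y506.PV.Stb

/-!
# Images of bodies
-/

set_option autoImplicit false

namespace Pool.Agent.Y506.PV

open MeasureTheory Set Filter Topology
open scoped ENNReal InnerProductSpace
open Pool.Agent.W695.KH (Eu EU EV VV Sm Pot Uu)
open Pool.Agent.Y506.RG

theorem vol_pos {n : ℕ} {K : Set (Eu (Fin n))} (hint : (interior K).Nonempty) : 0 < volume K :=
  lt_of_lt_of_le (isOpen_interior.measure_pos volume hint) (measure_mono interior_subset)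

theorem lcn_ind {n : ℕ} {K : Set (Eu (Fin n))} (hc : Convex ℝ K) : LCn (ind K) := by
  intro x y t h0 h1
  unfold ind
  by_cases hx : x ∈ K
  · by_cases hy : y ∈ K
    · have h2 : (1 - t) • x + t • y ∈ K := hc hx hy (by linarith) h0.le (by ring)
      rw [indicator_of_mem hx, indicator_of_mem hy, indicator_of_mem h2, Real.one_rpow,
        Real.one_rpow, mul_one]
    · rw [indicator_of_notMem hy, Real.zero_rpow h0.ne', mul_zero]
      exact indicator_nonneg (fun _ _ => zero_le_one) _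
  · rw [indicator_of_notMem hx, Real.zero_rpow (by linarith : (1 - t) ≠ 0), zero_mul]
    exact indicator_nonneg (fun _ _ => zero_le_one) _

theorem int_image {n k : ℕ} {K : Set (Eu (Fin n))} (hint : (interior K).Nonempty)
    (A : Eu (Fin n) →ₗ[ℝ] Eu (Fin k)) (hA : Function.Surjective A) :
    (interior (A '' K)).Nonempty := by
  obtain ⟨x, hx⟩ := hint
  have h1 : IsOpenMap (LinearMap.toContinuousLinearMap A) :=
    ContinuousLinearMap.isOpenMap _ hA
  have h2 : IsOpen (A '' interior K) := h1 _ isOpen_interior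
  have h3 : A '' interior K ⊆ A '' K := image_mono interior_subset
  exact ⟨A x, interior_maximal h3 h2 ⟨x, hx, rfl⟩⟩

/-- dropping a coordinate -/
theorem cc_drp (hPRJ : S_PRJ) (hDEN : S_DEN) (δ : ℝ) (hδ : 0 < δ) : ∃ δ0 c : ℝ, 0 < δ0 ∧ 0 < c ∧
    ∀ (n : ℕ) (κ : ℝ) (K : Set (Eu (Fin (n + 1)))), 0 < κ → IsCompact K → Convex ℝ K →
    (interior K).Nonempty → CcW κ δ0 (ind K) → CcW (c * κ) δ (ind (drp n '' K)) := by
  obtain ⟨δ0, c, hδ0, hc, H⟩ := hDEN δ hδ
  refine ⟨δ0, c, hδ0, hc, fun n κ K hκ hK hcv hint hcc => ?_⟩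
  obtain ⟨u, hum, hu0, huz, huc, ⟨B, hB⟩, hF⟩ := hPRJ n K hK hcv hint
  have hdc : Continuous (drp n) := (drp n).continuous_of_finiteDimensional
  have hsurj : Function.Surjective (drp n) := by
    intro y
    refine ⟨WithLp.toLp 2 (Fin.cons 0 fun i => y i), ?_⟩
    ext i
    show (Fin.cons 0 (fun i => y i) : Fin (n + 1) → ℝ) i.succ = y i
    rw [Fin.cons_succ]
  obtain ⟨K0, hK0⟩ : ∃ K0 : Set (Eu (Fin n)), K0 = drp n '' K := ⟨_, rfl⟩
  rw [← hK0] at huz huc ⊢
  have hcp0 : IsCompact K0 := by rw [hK0]; exact hK.image hdc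
  have hcv0 : Convex ℝ K0 := by rw [hK0]; exact hcv.linear_image (drp n)
  have hint0 : (interior K0).Nonempty := by rw [hK0]; exact int_image hint (drp n) hsurj
  have hA0 := adm_ind K0 hcp0.measurableSet hcp0.isBounded (vol_pos hint0)
  have hA := adm_ind K hK.measurableSet hK.isBounded (vol_pos hint)
  have hui : ∀ x, u x * ind K0 x = u x := by
    intro x
    unfold ind
    by_cases hx : x ∈ K0
    · rw [indicator_of_mem hx, mul_one]
    · rw [indicator_of_notMem hx, mul_zero, huz x hx]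
  have hmass : ∫ x, u x = (volume K).toReal := by
    have h1 := hF (fun _ => 1) continuous_const
    simp only [one_mul] at h1
    rw [← h1]
    simp [Measure.real]
  have hint1 : Integrable fun x => (1 + ‖x‖ ^ 2) * u x := by
    refine Integrable.mono' (hA0.int.const_mul B)
      ((by fun_prop : Measurable fun x : Eu (Fin n) => 1 + ‖x‖ ^ 2).mul hum).aestronglyMeasurable
      (Eventually.of_forall fun x => ?_)
    rw [Real.norm_eq_abs, abs_of_nonneg (mul_nonneg (by positivity) (hu0 x))]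
    have h1 : u x ≤ B * ind K0 x := by
      unfold ind
      by_cases hx : x ∈ K0
      · rw [indicator_of_mem hx, mul_one]
        exact hB x
      · rw [indicator_of_notMem hx, mul_zero, huz x hx]
    calc (1 + ‖x‖ ^ 2) * u x ≤ (1 + ‖x‖ ^ 2) * (B * ind K0 x) :=
          mul_le_mul_of_nonneg_left h1 (by positivity)
      _ = _ := by ring
  have hAu : Adm fun x => u x * ind K0 x := by
    refine ⟨fun x => by rw [hui]; exact hu0 x, ?_, ?_, ?_⟩
    · simp only [hui]
      exact hint1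
    · simp only [hui]
      rw [hmass]
      exact ENNReal.toReal_pos (vol_pos hint).ne' hK.measure_lt_top.ne
    · simp only [hui]
      exact hum
  have hEW : ∀ F : Eu (Fin n) → ℝ, Continuous F → EW (fun x => u x * ind K0 x) F =
      EW (ind K) fun z => F (drp n z) := by
    intro F hFc
    unfold EW
    simp only [hui]
    rw [hmass, ← hF F hFc, int_ind K hK.measurableSet, int_ind1 K hK.measurableSet]
  have hVW : ∀ F : Eu (Fin n) → ℝ, Continuous F → VW (fun x => u x * ind K0 x) F =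
      VW (ind K) fun z => F (drp n z) := by
    intro F hFc
    unfold VW
    rw [hEW F hFc, hEW (fun x => F x ^ 2) (hFc.pow 2)]
  refine H n κ (ind K0) u hκ hA0 (lcn_ind hcv0) hum hu0 huc hAu ?_
  intro k hk T s hs hvar v hv hv1 hvl
  have hTc : Continuous T := T.continuous_of_finiteDimensional
  rw [hVW (fun x => v (T x)) (hv.continuous.comp hTc)]
  refine hcc k (hk.trans (Nat.le_succ n)) (T.comp (drp n)) s hs (fun θ hθ => ?_) v hv hv1 hvl
  have h1 := hvar θ hθ
  rw [hVW (fun x => ⟪T x, θ⟫_ℝ) (hTc.inner continuous_const)] at h1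
  exact h1

theorem cc_equiv {n : ℕ} {κ δ : ℝ} (A : Eu (Fin n) ≃L[ℝ] Eu (Fin n)) (K : Set (Eu (Fin n)))
    (hA : Adm (ind K)) (h : CcW κ δ (ind K)) : CcW κ δ (ind (A '' K)) := by
  refine cc_aff A.symm 0 1 one_pos _ (ind K) ?_ hA h
  intro x
  rw [sub_zero, one_mul]
  unfold ind
  by_cases hx : x ∈ A '' K
  · obtain ⟨y, hy, rfl⟩ := hx
    rw [indicator_of_mem (mem_image_of_mem A hy), ContinuousLinearEquiv.symm_apply_apply,
      indicator_of_mem hy]
  · have : A.symm x ∉ K := fun h => hx ⟨A.symm x, h, A.apply_symm_apply x⟩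
    rw [indicator_of_notMem hx, indicator_of_notMem this]

/-- images of codimension one -/
theorem cc_img1 (hPRJ : S_PRJ) (hDEN : S_DEN) (hCMP : S_CMP) (δ : ℝ) (hδ : 0 < δ) :
    ∃ δ0 c : ℝ, 0 < δ0 ∧ 0 < c ∧
    ∀ (n : ℕ) (κ : ℝ) (K : Set (Eu (Fin (n + 1)))) (A : Eu (Fin (n + 1)) →ₗ[ℝ] Eu (Fin n)),
    0 < κ → IsCompact K → Convex ℝ K → (interior K).Nonempty → Function.Surjective A →
    CcW κ δ0 (ind K) → CcW (c * κ) δ (ind (A '' K)) := by
  obtain ⟨δ0, c, hδ0, hc, H⟩ := cc_drp hPRJ hDEN δ hδ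
  refine ⟨δ0, c, hδ0, hc, fun n κ K A hκ hK hcv hint hA hcc => ?_⟩
  obtain ⟨C, hC⟩ := hCMP n A hA
  have h1 : A '' K = drp n '' (C '' K) := by
    rw [image_image]
    exact image_congr fun x _ => hC x
  rw [h1]
  have hadm := adm_ind K hK.measurableSet hK.isBounded (vol_pos hint)
  refine H n κ (C '' K) hκ (hK.image C.continuous)
    (hcv.linear_image C.toLinearEquiv.toLinearMap) ?_ (cc_equiv C K hadm hcc)
  exact int_image hint C.toLinearEquiv.toLinearMap C.surjective

/-- images of codimension `r` -/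
theorem cc_img (hPRJ : S_PRJ) (hDEN : S_DEN) (hCMP : S_CMP) (hFAC : S_FAC) (r : ℕ) :
    ∀ δ : ℝ, 0 < δ → ∃ δ0 c : ℝ, 0 < δ0 ∧ 0 < c ∧
    ∀ (n : ℕ) (κ : ℝ) (K : Set (Eu (Fin (n + r)))) (A : Eu (Fin (n + r)) →ₗ[ℝ] Eu (Fin n)),
    0 < κ → IsCompact K → Convex ℝ K → (interior K).Nonempty → Function.Surjective A →
    CcW κ δ0 (ind K) → CcW (c * κ) δ (ind (A '' K)) := by
  induction r with
  | zero =>
    intro δ hδ
    refine ⟨δ, 1, hδ, one_pos, fun n κ K A hκ hK hcv hint hA hcc => ?_⟩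
    have hinj : Function.Injective A := (LinearMap.injective_iff_surjective (f := A)).2 hA
    let E : Eu (Fin n) ≃ₗ[ℝ] Eu (Fin n) := LinearEquiv.ofBijective A ⟨hinj, hA⟩
    have h1 : A '' K = E.toContinuousLinearEquiv '' K := rfl
    rw [h1, one_mul]
    exact cc_equiv _ K (adm_ind K hK.measurableSet hK.isBounded (vol_pos hint)) hcc
  | succ r ih =>
    intro δ hδ
    obtain ⟨δ1, c1, hδ1, hc1, H1⟩ := ih δ hδ
    obtain ⟨δ0, c0, hδ0, hc0, H0⟩ := cc_img1 hPRJ hDEN hCMP δ1 hδ1
    refine ⟨δ0, c1 * c0, hδ0, by positivity, fun n κ K A hκ hK hcv hint hA hcc => ?_⟩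
    obtain ⟨A1, A2, hA1, hA2, hAA⟩ := hFAC (n + r) n A hA (Nat.le_add_right n r)
    have h2 := H0 (n + r) κ K A1 hκ hK hcv hint hA1 hcc
    have hA1c : Continuous A1 := A1.continuous_of_finiteDimensional
    have h3 := H1 n (c0 * κ) (A1 '' K) A2 (by positivity) (hK.image hA1c)
      (hcv.linear_image A1) (int_image hint A1 hA1) hA2 h2
    have h4 : A '' K = A2 '' (A1 '' K) := by
      rw [image_image]
      exact image_congr fun x _ => hAA x
    rw [h4, mul_assoc]
    exact h3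

end Pool.Agent.Y506.PV
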